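import Pool.Agent.Helper92.BQ.Defs
import Pool.Agent.Helper15.BQ.ClaimA
import Pool.Agent.Helper29.BP.Step3

/-!
# `EN` of the members of `2F` is small in the mean ((4) of note 2116, MP_a4e7e3_co)

`ensmall_of` deduces `ENSMALL` from `ENCHAIN`.
-/

set_option autoImplicit false

namespace Pool.Agent.Helper45.BQ

open Finset Pool.Agent.Helper15.BP Pool.Agent.Helper92.BQ

theorem ensmall_of (hE : ENCHAIN) : ENSMALL := by
  intro G _ _ hG N c δ hc hδ hLE F κ y hκ hF
  classical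
  have hlaw : ∀ a, 0 < F.w a → IsPr (F.lawAt a) := fun a ha =>
    isPr_law F.hw F.Y F.J (F.J a) (pr_pos F.hw F.J ha).ne'
  choose Hp hHp1 hHp2 using fun a b : F.Ω =>
    exists_Hp (conv (F.lawAt a) (F.lawAt b)) c
  have hA := claimA F κ y c hκ hc hF Hp (fun a b _ _ => hHp1 a b)
  have hN : (0 : ℝ) ≤ (N : ℝ) := Nat.cast_nonneg N
  -- one member
  have key : ∀ o : F.Ω × F.Ω, (F.add F).w o * ENL ((F.add F).lawAt o) N ≤
      (N : ℝ) * (prodW F.w F.w o * DL (conv (F.lawAt o.1) (F.lawAt o.2)) (Hp o.1 o.2)) +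
        δ * ((F.add F).w o * DL ((F.add F).lawAt o) ⊥) := by
    intro o
    have hw : (F.add F).w o = F.w o.1 * F.w o.2 := rfl
    have hw' : prodW F.w F.w o = F.w o.1 * F.w o.2 := rfl
    rw [hw, hw']
    rcases (F.hw.nonneg o.1).eq_or_lt with h0 | h0
    · rw [← h0]
      simp
    rcases (F.hw.nonneg o.2).eq_or_lt with h1 | h1
    · rw [← h1]
      simp
    rw [lawAt_add F F o h0 h1]
    have hp : IsPr (conv (F.lawAt o.1) (F.lawAt o.2)) := isPr_conv (hlaw _ h0) (hlaw _ h1)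
    have h3 := hE G hG N c δ hc hδ hLE (conv (F.lawAt o.1) (F.lawAt o.2)) hp (Hp o.1 o.2)
      (fun K hK => by
        have := hHp2 o.1 o.2 K hK
        linarith)
    have h4 : 0 ≤ F.w o.1 * F.w o.2 := mul_nonneg h0.le h1.le
    have h5 := mul_le_mul_of_nonneg_left h3 h4
    linarith
  calc ∑ o, (F.add F).w o * ENL ((F.add F).lawAt o) N
      ≤ ∑ o : F.Ω × F.Ω,
          ((N : ℝ) * (prodW F.w F.w o * DL (conv (F.lawAt o.1) (F.lawAt o.2)) (Hp o.1 o.2)) +
          δ * ((F.add F).w o * DL ((F.add F).lawAt o) ⊥)) :=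
        Finset.sum_le_sum fun o _ => key o
    _ = (N : ℝ) * ∑ o : F.Ω × F.Ω,
          prodW F.w F.w o * DL (conv (F.lawAt o.1) (F.lawAt o.2)) (Hp o.1 o.2) +
          δ * (F.add F).D ⊥ := by
        rw [Finset.sum_add_distrib, ← Finset.mul_sum, ← Finset.mul_sum, (F.add F).D_eq_sum ⊥]
        rfl
    _ ≤ (N : ℝ) * (κ / c * F.D ⊥ + y) + δ * (F.add F).D ⊥ := by
        have := mul_le_mul_of_nonneg_left hA hN
        linarith

end Pool.Agent.Helper45.BQ
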